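import Mathlib

open MeasureTheory Metric Set Filter Topology
open scoped ENNReal NNReal

namespace Pool.Agent.Results.MP_9d555c_an.Full

/-- `ℝⁿ` with its Euclidean norm and Lebesgue measure. -/
abbrev Rn (n : ℕ) := EuclideanSpace ℝ (Fin n)

/-- The kernel `Ω(z/|z|) / |z|ⁿ`. Only the values of `Ω` on the unit sphere matter. -/
noncomputable def kernel {n : ℕ} (Ω : Rn n → ℂ) (z : Rn n) : ℂ :=
  Ω (‖z‖⁻¹ • z) / ((‖z‖ : ℂ) ^ n)

/-- The singular integral
`K f (x) = lim_{ε → 0+} ∫_{|x-y| > ε} Ω((x-y)/|x-y|) / |x-y|ⁿ f(y) dy`. -/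
noncomputable def czOp {n : ℕ} (Ω : Rn n → ℂ) (f : Rn n → ℂ) (x : Rn n) : ℂ :=
  limUnder (𝓝[>] (0 : ℝ)) (fun ε : ℝ => ∫ y in {y | ε < ‖x - y‖}, kernel Ω (x - y) * f y)

/-- The conjugated operator `K_β f = e^{-β} K (e^{β} f)`. -/
noncomputable def conjOp {n : ℕ} (Ω : Rn n → ℂ) (β : Rn n → ℝ) (f : Rn n → ℂ) (x : Rn n) : ℂ :=
  (Real.exp (-β x) : ℂ) * czOp Ω (fun y => (Real.exp (β y) : ℂ) * f y) x

/-- The functions to which `K_β` is first applied: bounded measurable functions of compact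
support for which `e^{β} f` is integrable, so that `K (e^{β} f)` makes sense. When `e^{β}` is
locally integrable this is every bounded measurable function of compact support, see
`isTest_iff`. -/
structure IsTest {n : ℕ} (β : Rn n → ℝ) (f : Rn n → ℂ) : Prop where
  meas : Measurable f
  bdd : ∃ M : ℝ, ∀ x, ‖f x‖ ≤ M
  supp : HasCompactSupport f
  int : Integrable (fun y => (Real.exp (β y) : ℂ) * f y)

/-- `‖K - K_β‖`, the operator norm on `L²`: the least `C ∈ [0,∞]` with
`‖(K - K_β) f‖₂ ≤ C ‖f‖₂` for all test functions `f` (it is `∞` when there is no finite one). -/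
noncomputable def diffNorm {n : ℕ} (Ω : Rn n → ℂ) (β : Rn n → ℝ) : ℝ≥0∞ :=
  sInf {C : ℝ≥0∞ | ∀ f : Rn n → ℂ, IsTest β f →
    eLpNorm (fun x => czOp Ω f x - conjOp Ω β f x) 2 volume ≤ C * eLpNorm f 2 volume}

/-- The cube with lowest corner `a` and side `ℓ`. -/
def cube {n : ℕ} (a : Rn n) (ℓ : ℝ) : Set (Rn n) := {x | ∀ i, a i ≤ x i ∧ x i ≤ a i + ℓ}

/-- `‖β‖_*`, the supremum over cubes `Q` of the mean over `Q` of `|β - β_Q|`. -/
noncomputable def bmoNorm {n : ℕ} (β : Rn n → ℝ) : ℝ≥0∞ :=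
  ⨆ (a : Rn n) (ℓ : ℝ) (_ : 0 < ℓ),
    ENNReal.ofReal (⨍ x in cube a ℓ, |β x - ⨍ y in cube a ℓ, β y|)

/-- Sanity check: when `e^{β}` is locally integrable, the test functions are exactly the bounded
measurable functions of compact support. -/
lemma isTest_iff {n : ℕ} {β : Rn n → ℝ} (hβ : LocallyIntegrable (fun y => Real.exp (β y)))
    (f : Rn n → ℂ) :
    IsTest β f ↔ Measurable f ∧ (∃ M : ℝ, ∀ x, ‖f x‖ ≤ M) ∧ HasCompactSupport f := by
  constructor
  · intro h
    exact ⟨h.meas, h.bdd, h.supp⟩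
  · rintro ⟨h1, ⟨M, hM⟩, h3⟩
    refine ⟨h1, ⟨M, hM⟩, h3, ?_⟩
    have h4 : IntegrableOn (fun y => (Real.exp (β y) : ℂ)) (tsupport f) :=
      (hβ.integrableOn_isCompact h3).ofReal
    have h5 : IntegrableOn (fun y => (Real.exp (β y) : ℂ) * f y) (tsupport f) :=
      h4.mul_bdd h1.aestronglyMeasurable (Filter.Eventually.of_forall hM)
    refine (integrableOn_iff_integrable_of_support_subset ?_).mp h5
    intro y hy
    apply subset_tsupport f
    intro h0
    exact hy (by simp [h0])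

/-! ### kernel -/

lemma kernel_smul {n : ℕ} (Ω : Rn n → ℂ) {t : ℝ} (ht : 0 < t) (z : Rn n) :
    kernel Ω (t • z) = ((t : ℂ) ^ n)⁻¹ * kernel Ω z := by
  unfold kernel
  have h1 : ‖t • z‖ = t * ‖z‖ := by rw [norm_smul, Real.norm_of_nonneg ht.le]
  have h2 : ‖t • z‖⁻¹ • (t • z) = ‖z‖⁻¹ • z := by
    rw [h1, smul_smul, mul_inv]
    congr 1
    field_simp
  rw [h2, h1]
  push_cast
  rw [mul_pow]
  by_cases hz : (‖z‖ : ℂ) ^ n = 0
  · simp [hz]
  · have ht' : (t : ℂ) ^ n ≠ 0 := pow_ne_zero _ (by exact_mod_cast ht.ne')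
    field_simp

lemma kernel_contAt {n : ℕ} (Ω : Rn n → ℂ) (hΩ : ContinuousOn Ω (sphere 0 1)) {z : Rn n}
    (hz : z ≠ 0) : ContinuousAt (kernel Ω) z := by
  have hz' : ‖z‖ ≠ 0 := by simpa using hz
  have h1 : ContinuousAt (fun z : Rn n => ‖z‖⁻¹ • z) z :=
    (continuous_norm.continuousAt.inv₀ hz').smul continuousAt_id
  have hmem : ∀ w : Rn n, w ≠ 0 → ‖w‖⁻¹ • w ∈ sphere (0 : Rn n) 1 := by
    intro w hw
    have hw' : ‖w‖ ≠ 0 := by simpa using hw
    rw [mem_sphere_zero_iff_norm, norm_smul, norm_inv, norm_norm, inv_mul_cancel₀ hw']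
  have h2 : ContinuousAt (fun z : Rn n => Ω (‖z‖⁻¹ • z)) z := by
    have h3 := hΩ _ (hmem z hz)
    refine h3.tendsto.comp ?_
    refine tendsto_nhdsWithin_iff.mpr ⟨h1, ?_⟩
    filter_upwards [isOpen_ne.mem_nhds hz] with w hw using hmem w hw
  refine h2.div₀ ?_ ?_
  · exact ((Complex.continuous_ofReal.comp continuous_norm).pow n).continuousAt
  · exact pow_ne_zero _ (by exact_mod_cast hz')

lemma kernel_near {n : ℕ} (Ω : Rn n → ℂ) (hΩ : ContinuousOn Ω (sphere 0 1)) (θ : Rn n)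
    (hθ : θ ∈ sphere (0 : Rn n) 1) (hne : Ω θ ≠ 0) :
    ∃ c : ℂ, ‖c‖ = 1 ∧ ∃ b > 0, ∃ B : ℝ, ∃ r > 0, r ≤ 1 / 2 ∧
      ∀ z : Rn n, ‖z - θ‖ ≤ r → b ≤ (c * kernel Ω z).re ∧ ‖kernel Ω z‖ ≤ B := by
  have hθn : ‖θ‖ = 1 := by simpa using hθ
  have hθ0 : θ ≠ 0 := by
    intro h; rw [h] at hθn; simp at hθn
  have hk : kernel Ω θ = Ω θ := by simp [kernel, hθn]
  set c : ℂ := (starRingEnd ℂ) (Ω θ) / (‖Ω θ‖ : ℂ) with hc
  have hnn : ‖Ω θ‖ ≠ 0 := by simpa using hne
  have hnc : ‖c‖ = 1 := by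
    rw [hc, norm_div, RCLike.norm_conj, Complex.norm_real, norm_norm, div_self hnn]
  have hcΩ : c * kernel Ω θ = (‖Ω θ‖ : ℂ) := by
    rw [hk, hc, div_mul_eq_mul_div, mul_comm, Complex.mul_conj, Complex.normSq_eq_norm_sq]
    have : (‖Ω θ‖ : ℂ) ≠ 0 := by exact_mod_cast hnn
    field_simp
    push_cast
    ring
  have hcont := kernel_contAt Ω hΩ hθ0
  have h1 : ContinuousAt (fun z => (c * kernel Ω z).re) θ :=
    Complex.continuous_re.continuousAt.comp (continuousAt_const.mul hcont)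
  have h2 : ContinuousAt (fun z => ‖kernel Ω z‖) θ := hcont.norm
  have hpos : 0 < ‖Ω θ‖ := lt_of_le_of_ne (norm_nonneg _) hnn.symm
  have e1 : ∀ᶠ z in 𝓝 θ, ‖Ω θ‖ / 2 < (c * kernel Ω z).re := by
    apply h1.eventually_const_lt
    change ‖Ω θ‖ / 2 < (c * kernel Ω θ).re
    rw [hcΩ, Complex.ofReal_re]; linarith
  have e2 : ∀ᶠ z in 𝓝 θ, ‖kernel Ω z‖ < ‖Ω θ‖ + 1 := by
    apply h2.eventually_lt_const
    change ‖kernel Ω θ‖ < ‖Ω θ‖ + 1
    rw [hk]; linarith
  obtain ⟨r, hr, hball⟩ := Metric.eventually_nhds_iff.mp (e1.and e2)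
  refine ⟨c, hnc, ‖Ω θ‖ / 2, by linarith, ‖Ω θ‖ + 1, min (r / 2) (1 / 2), by positivity,
    min_le_right _ _, ?_⟩
  intro z hz
  have hz' : dist z θ < r := by
    rw [dist_eq_norm]
    have := min_le_left (r / 2) (1 / 2 : ℝ)
    linarith
  obtain ⟨h3, h4⟩ := hball hz'
  exact ⟨h3.le, h4.le⟩

lemma cube_geom {n : ℕ} {p q x y : Rn n} {ℓ : ℝ} (hℓ : 0 < ℓ) (hx : x ∈ cube p ℓ)
    (hy : y ∈ cube q ℓ) : ‖(x - y) - (p - q)‖ ≤ Real.sqrt n * ℓ := by
  rw [EuclideanSpace.norm_eq]
  have : Real.sqrt n * ℓ = Real.sqrt (n * ℓ ^ 2) := by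
    rw [Real.sqrt_mul (by positivity), Real.sqrt_sq hℓ.le]
  rw [this]
  apply Real.sqrt_le_sqrt
  have h1 : ∀ i ∈ (Finset.univ : Finset (Fin n)), ‖((x - y) - (p - q)) i‖ ^ 2 ≤ ℓ ^ 2 := by
    intro i _
    have hxi := hx i
    have hyi := hy i
    have : |((x - y) - (p - q)) i| ≤ ℓ := by
      simp only [PiLp.sub_apply]
      rw [abs_le]
      constructor <;> linarith [hxi.1, hxi.2, hyi.1, hyi.2]
    rw [Real.norm_eq_abs, sq_le_sq, abs_abs, abs_of_pos hℓ]
    exact this
  calc ∑ i, ‖((x - y) - (p - q)) i‖ ^ 2 ≤ ∑ i : Fin n, ℓ ^ 2 := Finset.sum_le_sum h1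
    _ = n * ℓ ^ 2 := by simp

/-! ### core estimate -/

/-- Two sets at positive distance between which the kernel, multiplied by a unimodular constant,
has real part at least `κ` and absolute value at most `B`. -/
structure Nice {n : ℕ} (Ω : Rn n → ℂ) (c : ℂ) (κ B d : ℝ) (X Y : Set (Rn n)) : Prop where
  hd : 0 < d
  dist : ∀ x ∈ X, ∀ y ∈ Y, d ≤ ‖x - y‖
  lower : ∀ x ∈ X, ∀ y ∈ Y, κ ≤ (c * kernel Ω (x - y)).re
  upper : ∀ x ∈ X, ∀ y ∈ Y, ‖kernel Ω (x - y)‖ ≤ B

lemma czOp_eq {n : ℕ} (Ω : Rn n → ℂ) {d : ℝ} (hd : 0 < d) {E : Set (Rn n)} (hE : MeasurableSet E)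
    (h : Rn n → ℂ) {x : Rn n} (hx : ∀ y ∈ E, d ≤ ‖x - y‖) :
    czOp Ω (E.indicator h) x = ∫ y in E, kernel Ω (x - y) * h y := by
  unfold czOp
  apply Tendsto.limUnder_eq
  apply tendsto_const_nhds.congr'
  have : ∀ᶠ ε : ℝ in 𝓝[>] 0, ε < d := by
    apply nhdsWithin_le_nhds
    exact Iio_mem_nhds hd
  filter_upwards [this] with ε hε
  have h1 : (fun y => kernel Ω (x - y) * E.indicator h y) =
      E.indicator (fun y => kernel Ω (x - y) * h y) := by
    ext y
    by_cases hy : y ∈ E <;> simp [hy]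
  rw [h1, setIntegral_indicator hE]
  congr 2
  ext y
  simp only [mem_inter_iff, Set.mem_ofPred_eq]
  constructor
  · intro hy
    exact ⟨lt_of_lt_of_le hε (hx y hy), hy⟩
  · intro hy
    exact hy.2

lemma kernel_meas {n : ℕ} (Ω : Rn n → ℂ) (hΩ : ContinuousOn Ω (sphere 0 1)) {d : ℝ} (hd : 0 < d)
    {E : Set (Rn n)} (hE : MeasurableSet E) {x : Rn n} (hx : ∀ y ∈ E, d ≤ ‖x - y‖) :
    AEStronglyMeasurable (fun y => kernel Ω (x - y)) (volume.restrict E) := by
  apply ContinuousOn.aestronglyMeasurable _ hE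
  intro y hy
  have hne : x - y ≠ 0 := by
    intro h0
    have := hx y hy
    rw [h0, norm_zero] at this
    linarith
  have h1 := kernel_contAt Ω hΩ hne
  have h2 : ContinuousAt (fun y => x - y) y := continuousAt_const.sub continuousAt_id
  exact (ContinuousAt.comp (f := fun y => x - y) h1 h2).continuousWithinAt

lemma core {n : ℕ} {Ω : Rn n → ℂ} {c : ℂ} (hc : ‖c‖ = 1) {κ B d : ℝ} (hκ : 0 ≤ κ)
    {X Y : Set (Rn n)} (hN : Nice Ω c κ B d X Y) (hΩ : ContinuousOn Ω (sphere 0 1))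
    {β : Rn n → ℝ} {C : ℝ≥0∞}
    (hC : ∀ f : Rn n → ℂ, IsTest β f →
      eLpNorm (fun x => czOp Ω f x - conjOp Ω β f x) 2 volume ≤ C * eLpNorm f 2 volume)
    {E F : Set (Rn n)} (hE : MeasurableSet E) (hEY : E ⊆ Y) (hEb : Bornology.IsBounded E)
    (hFX : F ⊆ X) (hint : IntegrableOn (fun y => Real.exp (β y)) E)
    (hsign : (∀ x ∈ F, ∀ y ∈ E, β x ≤ β y) ∨ (∀ x ∈ F, ∀ y ∈ E, β y ≤ β x))
    {g : Rn n → ℝ} (hg0 : ∀ x ∈ F, 0 ≤ g x)
    (hg : ∀ x ∈ F, g x ≤ ∫ y in E, |Real.exp (β y - β x) - 1|) (hF : MeasurableSet F) :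
    ∫⁻ x in F, ENNReal.ofReal ((κ * g x) ^ 2) ≤ C ^ 2 * volume E := by
  have hEfin : volume E < ⊤ := hEb.measure_lt_top
  set f : Rn n → ℂ := E.indicator (fun _ => (1 : ℂ)) with hf
  have hEcpt : HasCompactSupport f := by
    obtain ⟨R, hR⟩ := hEb.subset_closedBall (0 : Rn n)
    refine HasCompactSupport.intro (isCompact_closedBall (0 : Rn n) R) ?_
    intro y hy
    have : y ∉ E := fun h => hy (hR h)
    simp [hf, this]
  have hind : (fun y => (Real.exp (β y) : ℂ) * f y) =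
      E.indicator (fun y => (Real.exp (β y) : ℂ)) := by
    ext y
    by_cases hy : y ∈ E <;> simp [hf, hy]
  have hintC : IntegrableOn (fun y => (Real.exp (β y) : ℂ)) E := hint.ofReal
  have htest : IsTest β f := by
    refine ⟨measurable_const.indicator hE, ⟨1, ?_⟩, hEcpt, ?_⟩
    · intro y
      by_cases hy : y ∈ E <;> simp [hf, hy]
    · rw [hind]
      exact (integrable_indicator_iff hE).mpr hintC
  have hmain := hC f htest
  -- pointwise lower bound
  have hpt : ∀ x ∈ F, κ * g x ≤ ‖czOp Ω f x - conjOp Ω β f x‖ := by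
    intro x hxF
    have hxX := hFX hxF
    have hdist : ∀ y ∈ E, d ≤ ‖x - y‖ := fun y hy => hN.dist x hxX y (hEY hy)
    have hk := kernel_meas Ω hΩ hN.hd hE hdist
    have hkB : ∀ᵐ y ∂(volume.restrict E), ‖kernel Ω (x - y)‖ ≤ B := by
      filter_upwards [ae_restrict_mem hE] with y hy using hN.upper x hxX y (hEY hy)
    have hkint : IntegrableOn (fun y => kernel Ω (x - y)) E := by
      have : IntegrableOn (fun _ : Rn n => (1 : ℂ)) E :=
        integrableOn_const (by exact hEfin.ne)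
      have h2 := this.bdd_mul hk hkB
      simpa [IntegrableOn] using h2
    have hkeint : IntegrableOn (fun y => kernel Ω (x - y) * (Real.exp (β y) : ℂ)) E :=
      hintC.bdd_mul hk hkB
    have e1 : czOp Ω f x = ∫ y in E, kernel Ω (x - y) := by
      rw [hf, czOp_eq Ω hN.hd hE _ hdist]
      simp
    have e2 : conjOp Ω β f x =
        ∫ y in E, (Real.exp (-β x) : ℂ) * (kernel Ω (x - y) * (Real.exp (β y) : ℂ)) := by
      unfold conjOp
      rw [hind, czOp_eq Ω hN.hd hE _ hdist, integral_const_mul]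
    have e3 : czOp Ω f x - conjOp Ω β f x =
        ∫ y in E, kernel Ω (x - y) * ((1 - Real.exp (β y - β x) : ℝ) : ℂ) := by
      rw [e1, e2, ← integral_sub hkint (hkeint.const_mul _)]
      apply integral_congr_ae
      filter_upwards with y
      rw [Real.exp_sub, Real.exp_neg]
      push_cast
      have : (Complex.exp (β x)) ≠ 0 := Complex.exp_ne_zero _
      field_simp
    have hint3 : IntegrableOn (fun y => kernel Ω (x - y) * ((1 - Real.exp (β y - β x) : ℝ) : ℂ)) E := by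
      have h4 := hkint.sub (hkeint.const_mul (Real.exp (-β x) : ℂ))
      refine h4.congr ?_
      filter_upwards with y
      simp only [Pi.sub_apply]
      rw [Real.exp_sub, Real.exp_neg]
      push_cast
      have : (Complex.exp (β x)) ≠ 0 := Complex.exp_ne_zero _
      field_simp
    have e4 : (c * (czOp Ω f x - conjOp Ω β f x)).re =
        ∫ y in E, (c * kernel Ω (x - y)).re * (1 - Real.exp (β y - β x)) := by
      rw [e3, ← integral_const_mul]
      have := integral_re (hint3.const_mul c)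
      simp only [RCLike.re_to_complex] at this
      rw [← this]
      apply integral_congr_ae
      filter_upwards with y
      rw [← mul_assoc, Complex.re_mul_ofReal]
    have hint4 : IntegrableOn
        (fun y => (c * kernel Ω (x - y)).re * (1 - Real.exp (β y - β x))) E := by
      have h5 := (hint3.const_mul c).re
      refine h5.congr ?_
      filter_upwards with y
      simp only [RCLike.re_to_complex]
      rw [← mul_assoc, Complex.re_mul_ofReal]
    have hint5 : IntegrableOn (fun y => |Real.exp (β y - β x) - 1|) E := by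
      have h6 : IntegrableOn (fun y => Real.exp (-β x) * Real.exp (β y) - 1) E :=
        (hint.const_mul _).sub (integrableOn_const (by exact hEfin.ne))
      refine (h6.abs).congr ?_
      filter_upwards with y
      rw [← Real.exp_add]
      congr 3
      ring
    have e5 : κ * ∫ y in E, |Real.exp (β y - β x) - 1| ≤
        |(c * (czOp Ω f x - conjOp Ω β f x)).re| := by
      rw [e4, ← integral_const_mul]
      rcases hsign with hs | hs
      · rw [← abs_neg, ← integral_neg]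
        refine le_trans ?_ (le_abs_self _)
        apply integral_mono_ae (hint5.const_mul _) hint4.neg
        filter_upwards [ae_restrict_mem hE] with y hy
        have h7 := hN.lower x hxX y (hEY hy)
        have h8 : 0 ≤ Real.exp (β y - β x) - 1 := by
          have := Real.one_le_exp (sub_nonneg.mpr (hs x hxF y hy))
          linarith
        rw [abs_of_nonneg h8]
        have := mul_le_mul_of_nonneg_right h7 h8
        simp only [Pi.neg_apply]
        linarith
      · refine le_trans ?_ (le_abs_self _)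
        apply integral_mono_ae (hint5.const_mul _) hint4
        filter_upwards [ae_restrict_mem hE] with y hy
        have h7 := hN.lower x hxX y (hEY hy)
        have h8 : Real.exp (β y - β x) - 1 ≤ 0 := by
          have := Real.exp_le_one_iff.mpr (sub_nonpos.mpr (hs x hxF y hy))
          linarith
        rw [abs_of_nonpos h8]
        have := mul_le_mul_of_nonneg_right h7 (neg_nonneg.mpr h8)
        linarith
    calc κ * g x ≤ κ * ∫ y in E, |Real.exp (β y - β x) - 1| :=
          mul_le_mul_of_nonneg_left (hg x hxF) hκ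
      _ ≤ |(c * (czOp Ω f x - conjOp Ω β f x)).re| := e5
      _ ≤ ‖c * (czOp Ω f x - conjOp Ω β f x)‖ := Complex.abs_re_le_norm _
      _ = ‖czOp Ω f x - conjOp Ω β f x‖ := by rw [norm_mul, hc, one_mul]
  have h9 : ∫⁻ x in F, ENNReal.ofReal ((κ * g x) ^ 2) ≤
      ∫⁻ x, ‖czOp Ω f x - conjOp Ω β f x‖ₑ ^ 2 := by
    calc ∫⁻ x in F, ENNReal.ofReal ((κ * g x) ^ 2)
        ≤ ∫⁻ x in F, ‖czOp Ω f x - conjOp Ω β f x‖ₑ ^ 2 := by
          apply setLIntegral_mono' hF
          intro x hx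
          rw [← ofReal_norm, ← ENNReal.ofReal_pow (norm_nonneg _)]
          apply ENNReal.ofReal_le_ofReal
          exact pow_le_pow_left₀ (mul_nonneg hκ (hg0 x hx)) (hpt x hx) 2
      _ ≤ _ := setLIntegral_le_lintegral _ _
  have h10 : ∫⁻ x, ‖czOp Ω f x - conjOp Ω β f x‖ₑ ^ 2 =
      (eLpNorm (fun x => czOp Ω f x - conjOp Ω β f x) 2 volume) ^ 2 := by
    rw [eLpNorm_eq_lintegral_rpow_enorm_toReal (by norm_num) (by norm_num)]
    simp only [ENNReal.toReal_ofNat, ENNReal.rpow_ofNat, one_div]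
    rw [← ENNReal.rpow_natCast, ← ENNReal.rpow_mul]
    norm_num
  have h11 : (eLpNorm f 2 volume) ^ 2 = volume E := by
    rw [hf, eLpNorm_indicator_const hE (by norm_num) (by norm_num)]
    simp only [enorm_one, one_mul, ENNReal.toReal_ofNat, one_div]
    rw [← ENNReal.rpow_natCast, ← ENNReal.rpow_mul]
    norm_num
  calc ∫⁻ x in F, ENNReal.ofReal ((κ * g x) ^ 2) ≤ _ := h9
    _ = _ := h10
    _ ≤ (C * eLpNorm f 2 volume) ^ 2 := by gcongr
    _ = C ^ 2 * volume E := by rw [mul_pow, h11]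

/-! ### median -/

lemma exists_median {α : Type*} [MeasurableSpace α] (μ : Measure α) [IsFiniteMeasure μ]
    (hμ : μ ≠ 0) {b : α → ℝ} (hb : Measurable b) :
    ∃ a : ℝ, μ univ / 2 ≤ μ {x | b x ≤ a} ∧ μ univ / 2 ≤ μ {x | a ≤ b x} := by
  have huniv : μ univ ≠ 0 := by simpa using hμ
  have hfin : μ univ ≠ ⊤ := measure_ne_top μ _
  have hhalf : μ univ / 2 < μ univ := ENNReal.half_lt_self huniv hfin
  set S : Set ℝ := {t | μ univ / 2 ≤ μ {x | b x ≤ t}} with hS
  have hmono : ∀ s t : ℝ, s ≤ t → μ {x | b x ≤ s} ≤ μ {x | b x ≤ t} := by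
    intro s t hst
    apply measure_mono
    intro x hx
    exact le_trans hx hst
  -- nonempty
  have hne : S.Nonempty := by
    have h1 : Tendsto (fun k : ℕ => μ {x | b x ≤ (k : ℝ)}) atTop (𝓝 (μ (⋃ k : ℕ, {x | b x ≤ (k : ℝ)}))) := by
      apply tendsto_measure_iUnion_atTop
      intro i j hij x hx
      have hx' : b x ≤ (i : ℝ) := hx
      have : (i : ℝ) ≤ j := by exact_mod_cast hij
      show b x ≤ (j : ℝ)
      linarith
    have h2 : (⋃ k : ℕ, {x | b x ≤ (k : ℝ)}) = univ := by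
      ext x
      simp only [mem_iUnion, Set.mem_ofPred_eq, mem_univ, iff_true]
      exact exists_nat_ge (b x)
    rw [h2] at h1
    obtain ⟨k, hk⟩ := (h1.eventually_const_lt hhalf).exists
    exact ⟨k, hk.le⟩
  have hbdd : BddBelow S := by
    have h1 : Tendsto (fun k : ℕ => μ {x | b x ≤ -(k : ℝ)}) atTop (𝓝 (μ (⋂ k : ℕ, {x | b x ≤ -(k : ℝ)}))) := by
      apply tendsto_measure_iInter_atTop
      · intro i
        exact (measurableSet_le hb measurable_const).nullMeasurableSet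
      · intro i j hij x hx
        have : (i : ℝ) ≤ j := by exact_mod_cast hij
        have hx' : b x ≤ -(j : ℝ) := hx
        show b x ≤ -(i : ℝ)
        linarith
      · exact ⟨0, measure_ne_top μ _⟩
    have h2 : (⋂ k : ℕ, {x | b x ≤ -(k : ℝ)}) = ∅ := by
      ext x
      simp only [mem_iInter, Set.mem_ofPred_eq, mem_empty_iff_false, iff_false, not_forall, not_le]
      obtain ⟨k, hk⟩ := exists_nat_gt (-b x)
      exact ⟨k, by linarith⟩
    rw [h2, measure_empty] at h1
    have hpos : 0 < μ univ / 2 := ENNReal.half_pos huniv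
    obtain ⟨k, hk⟩ := (h1.eventually_lt_const hpos).exists
    refine ⟨-(k : ℝ), ?_⟩
    intro t ht
    by_contra hlt
    push Not at hlt
    have := hmono t _ hlt.le
    have ht' : μ univ / 2 ≤ μ {x | b x ≤ t} := ht
    exact absurd (lt_of_le_of_lt (ht'.trans this) hk) (lt_irrefl _)
  set a := sInf S with ha
  have hgt : ∀ t, a < t → μ univ / 2 ≤ μ {x | b x ≤ t} := by
    intro t hat
    obtain ⟨s, hs, hst⟩ := exists_lt_of_csInf_lt hne hat
    have hs' : μ univ / 2 ≤ μ {x | b x ≤ s} := hs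
    exact hs'.trans (hmono s t hst.le)
  have hlt : ∀ t, t < a → μ {x | b x ≤ t} < μ univ / 2 := by
    intro t hta
    by_contra h
    push Not at h
    exact absurd (csInf_le hbdd h) (not_le.mpr hta)
  refine ⟨a, ?_, ?_⟩
  · have h1 : Tendsto (fun k : ℕ => μ {x | b x ≤ a + 1 / ((k : ℝ) + 1)}) atTop
        (𝓝 (μ (⋂ k : ℕ, {x | b x ≤ a + 1 / ((k : ℝ) + 1)}))) := by
      apply tendsto_measure_iInter_atTop
      · intro i
        exact (measurableSet_le hb measurable_const).nullMeasurableSet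
      · intro i j hij x hx
        have h3 : 1 / ((j : ℝ) + 1) ≤ 1 / ((i : ℝ) + 1) := by
          apply one_div_le_one_div_of_le (by positivity)
          have : (i : ℝ) ≤ j := by exact_mod_cast hij
          linarith
        have hx' : b x ≤ a + 1 / ((j : ℝ) + 1) := hx
        show b x ≤ a + 1 / ((i : ℝ) + 1)
        linarith
      · exact ⟨0, measure_ne_top μ _⟩
    have h2 : (⋂ k : ℕ, {x | b x ≤ a + 1 / ((k : ℝ) + 1)}) = {x | b x ≤ a} := by
      ext x
      simp only [mem_iInter, Set.mem_ofPred_eq]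
      constructor
      · intro h
        apply le_of_forall_pos_le_add
        intro ε hε
        obtain ⟨k, hk⟩ := exists_nat_one_div_lt hε
        have := h k
        linarith
      · intro h k
        have : 0 < 1 / ((k : ℝ) + 1) := by positivity
        linarith
    rw [h2] at h1
    apply ge_of_tendsto' h1
    intro k
    apply hgt
    have : 0 < 1 / ((k : ℝ) + 1) := by positivity
    linarith
  · have h1 : Tendsto (fun k : ℕ => μ {x | b x ≤ a - 1 / ((k : ℝ) + 1)}) atTop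
        (𝓝 (μ (⋃ k : ℕ, {x | b x ≤ a - 1 / ((k : ℝ) + 1)}))) := by
      apply tendsto_measure_iUnion_atTop
      intro i j hij x hx
      have h3 : 1 / ((j : ℝ) + 1) ≤ 1 / ((i : ℝ) + 1) := by
        apply one_div_le_one_div_of_le (by positivity)
        have : (i : ℝ) ≤ j := by exact_mod_cast hij
        linarith
      have hx' : b x ≤ a - 1 / ((i : ℝ) + 1) := hx
      show b x ≤ a - 1 / ((j : ℝ) + 1)
      linarith
    have h2 : (⋃ k : ℕ, {x | b x ≤ a - 1 / ((k : ℝ) + 1)}) = {x | a ≤ b x}ᶜ := by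
      ext x
      simp only [mem_iUnion, Set.mem_ofPred_eq, mem_compl_iff, not_le]
      constructor
      · rintro ⟨k, hk⟩
        have : 0 < 1 / ((k : ℝ) + 1) := by positivity
        linarith
      · intro h
        obtain ⟨k, hk⟩ := exists_nat_one_div_lt (sub_pos.mpr h)
        exact ⟨k, by linarith⟩
    rw [h2] at h1
    have h3 : μ {x | a ≤ b x}ᶜ ≤ μ univ / 2 := by
      apply le_of_tendsto' h1
      intro k
      apply (hlt _ _).le
      have : 0 < 1 / ((k : ℝ) + 1) := by positivity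
      linarith
    have h4 : μ {x | a ≤ b x} + μ {x | a ≤ b x}ᶜ = μ univ :=
      measure_add_measure_compl (measurableSet_le measurable_const hb)
    by_contra hcon
    push Not at hcon
    have h5 : μ {x | a ≤ b x} + μ {x | a ≤ b x}ᶜ < μ univ / 2 + μ univ / 2 :=
      ENNReal.add_lt_add_of_lt_of_le (measure_ne_top _ _) hcon h3
    rw [h4, ENNReal.add_halves] at h5
    exact lt_irrefl _ h5

/-! ### cubes -/

lemma cube_eq {n : ℕ} (p : Rn n) (ℓ : ℝ) : cube p ℓ =
    (WithLp.ofLp : Rn n → (Fin n → ℝ)) ⁻¹' (Icc (fun i => p i) (fun i => p i + ℓ)) := by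
  ext x
  simp only [cube, Set.mem_ofPred_eq, mem_preimage, mem_Icc, Pi.le_def]
  exact forall_and

lemma cube_meas {n : ℕ} (p : Rn n) (ℓ : ℝ) : MeasurableSet (cube p ℓ) := by
  rw [cube_eq]
  exact (PiLp.volume_preserving_ofLp (Fin n)).measurable measurableSet_Icc

lemma cube_volume {n : ℕ} (p : Rn n) {ℓ : ℝ} (hℓ : 0 < ℓ) :
    volume (cube p ℓ) = ENNReal.ofReal (ℓ ^ n) := by
  rw [cube_eq, (PiLp.volume_preserving_ofLp (Fin n)).measure_preimage
    measurableSet_Icc.nullMeasurableSet, Real.volume_Icc_pi]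
  simp [ENNReal.ofReal_pow hℓ.le]

lemma cube_bdd {n : ℕ} (p : Rn n) {ℓ : ℝ} (hℓ : 0 < ℓ) : Bornology.IsBounded (cube p ℓ) := by
  have hp : p ∈ cube p ℓ := fun i => ⟨le_rfl, by linarith⟩
  refine (Metric.isBounded_closedBall (x := p) (r := Real.sqrt n * ℓ)).subset ?_
  intro x hx
  have := cube_geom hℓ hx hp
  simpa [dist_eq_norm] using this

lemma nice_cubes {n : ℕ} {Ω : Rn n → ℂ} {θ : Rn n} (hθ : ‖θ‖ = 1) {c : ℂ}
    {b B r : ℝ} (hb : 0 < b) (hr : 0 < r) (hr2 : r ≤ 1 / 2)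
    (hnear : ∀ z : Rn n, ‖z - θ‖ ≤ r → b ≤ (c * kernel Ω z).re ∧ ‖kernel Ω z‖ ≤ B)
    {A : ℝ} (hA : 0 < A) (hAr : Real.sqrt n ≤ A * r) {ℓ : ℝ} (hℓ : 0 < ℓ) {t : ℝ}
    (ht1 : A ≤ t) (ht2 : t ≤ 2 * A) {p q : Rn n} (hpq : p - q = (t * ℓ) • θ) :
    Nice Ω c (b / (2 * A * ℓ) ^ n) (B / (A * ℓ) ^ n) (A * ℓ / 2) (cube p ℓ) (cube q ℓ) := by
  have ht : 0 < t := by linarith
  have htℓ : 0 < t * ℓ := by positivity
  have key : ∀ x ∈ cube p ℓ, ∀ y ∈ cube q ℓ, ∃ z : Rn n, ‖z - θ‖ ≤ r ∧ x - y = (t * ℓ) • z := by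
    intro x hx y hy
    refine ⟨(t * ℓ)⁻¹ • (x - y), ?_, ?_⟩
    · have h1 : (t * ℓ)⁻¹ • (x - y) - θ = (t * ℓ)⁻¹ • ((x - y) - (p - q)) := by
        rw [hpq, smul_sub (t * ℓ)⁻¹ (x - y), smul_smul, inv_mul_cancel₀ htℓ.ne', one_smul]
      rw [h1, norm_smul, norm_inv, Real.norm_of_nonneg htℓ.le]
      have h2 := cube_geom hℓ hx hy
      rw [inv_mul_le_iff₀ htℓ]
      calc ‖(x - y) - (p - q)‖ ≤ Real.sqrt n * ℓ := h2
        _ ≤ (A * r) * ℓ := by gcongr
        _ ≤ (t * r) * ℓ := by gcongr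
        _ = t * ℓ * r := by ring
    · rw [smul_smul, mul_inv_cancel₀ htℓ.ne', one_smul]
  have hB : 0 ≤ B := (norm_nonneg _).trans (hnear θ (by simpa using hr.le)).2
  have hz1 : ∀ z : Rn n, ‖z - θ‖ ≤ r → 1 / 2 ≤ ‖z‖ := by
    intro z hz
    have h1 : ‖θ‖ ≤ ‖z‖ + ‖z - θ‖ := by
      have := norm_sub_norm_le θ z
      rw [norm_sub_rev] at this
      linarith
    linarith
  refine ⟨by positivity, ?_, ?_, ?_⟩
  · intro x hx y hy
    obtain ⟨z, hz, hxy⟩ := key x hx y hy
    rw [hxy, norm_smul, Real.norm_of_nonneg htℓ.le]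
    have := hz1 z hz
    calc A * ℓ / 2 = (A * ℓ) * (1 / 2) := by ring
      _ ≤ (t * ℓ) * ‖z‖ := by gcongr
  · intro x hx y hy
    obtain ⟨z, hz, hxy⟩ := key x hx y hy
    rw [hxy, kernel_smul Ω htℓ]
    have h1 : (c * ((((t * ℓ : ℝ) : ℂ) ^ n)⁻¹ * kernel Ω z)).re =
        ((t * ℓ) ^ n)⁻¹ * (c * kernel Ω z).re := by
      have : c * ((((t * ℓ : ℝ) : ℂ) ^ n)⁻¹ * kernel Ω z) =
          ((((t * ℓ) ^ n)⁻¹ : ℝ) : ℂ) * (c * kernel Ω z) := by
        push_cast
        ring
      rw [this, Complex.re_ofReal_mul]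
    rw [h1]
    have h2 := (hnear z hz).1
    calc b / (2 * A * ℓ) ^ n ≤ b / (t * ℓ) ^ n := by gcongr
      _ = ((t * ℓ) ^ n)⁻¹ * b := by ring
      _ ≤ ((t * ℓ) ^ n)⁻¹ * (c * kernel Ω z).re := by gcongr
  · intro x hx y hy
    obtain ⟨z, hz, hxy⟩ := key x hx y hy
    rw [hxy, kernel_smul Ω htℓ, norm_mul, norm_inv, norm_pow, Complex.norm_real,
      Real.norm_of_nonneg htℓ.le]
    have h2 := (hnear z hz).2
    calc ((t * ℓ) ^ n)⁻¹ * ‖kernel Ω z‖ ≤ ((A * ℓ) ^ n)⁻¹ * B := by gcongr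
      _ = B / (A * ℓ) ^ n := by ring

/-! ### three consequences of the core estimate -/

lemma exp_intOn {n : ℕ} {β : Rn n → ℝ} (hβ : Measurable β) {E : Set (Rn n)}
    (hE : MeasurableSet E) (hEb : Bornology.IsBounded E) {N : ℝ} (hN : ∀ y ∈ E, β y ≤ N) :
    IntegrableOn (fun y => Real.exp (β y)) E := by
  apply Measure.integrableOn_of_bounded (M := Real.exp N) hEb.measure_lt_top.ne
  · exact (Real.measurable_exp.comp hβ).aestronglyMeasurable
  · filter_upwards [ae_restrict_mem hE] with y hy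
    rw [Real.norm_of_nonneg (Real.exp_pos _).le]
    exact Real.exp_le_exp.mpr (hN y hy)

lemma abs_intOn {n : ℕ} {β : Rn n → ℝ} {E : Set (Rn n)} (hEb : Bornology.IsBounded E)
    (hint : IntegrableOn (fun y => Real.exp (β y)) E) (v : ℝ) :
    IntegrableOn (fun y => |Real.exp (β y - v) - 1|) E := by
  have h6 : IntegrableOn (fun y => Real.exp (-v) * Real.exp (β y) - 1) E :=
    (hint.const_mul _).sub (integrableOn_const (by exact hEb.measure_lt_top.ne))
  refine (h6.abs).congr ?_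
  filter_upwards with y
  rw [← Real.exp_add]
  congr 3
  ring

section steps

variable {n : ℕ} {Ω : Rn n → ℂ} {c : ℂ} {κ B d : ℝ} {X Y : Set (Rn n)} {β : Rn n → ℝ} {δ V : ℝ}

lemma step1 (hc : ‖c‖ = 1) (hκ : 0 < κ) (hN : Nice Ω c κ B d X Y)
    (hΩ : ContinuousOn Ω (sphere 0 1)) (hβ : Measurable β) (hδ : 0 < δ)
    (hC : ∀ f : Rn n → ℂ, IsTest β f →
      eLpNorm (fun x => czOp Ω f x - conjOp Ω β f x) 2 volume ≤
        ENNReal.ofReal δ * eLpNorm f 2 volume)
    (hX : MeasurableSet X) (hY : MeasurableSet Y) (hYb : Bornology.IsBounded Y)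
    (hV : 0 < V) (hYV : volume Y ≤ ENNReal.ofReal V) (a : ℝ)
    (hmed : ENNReal.ofReal (V / 2) ≤ volume (X ∩ {x | β x ≤ a})) (hint : IntegrableOn β Y) :
    ∫ y in Y ∩ {y | a ≤ β y}, (β y - a) ≤ 2 * δ / κ := by
  have hset : MeasurableSet {y | a ≤ β y} := measurableSet_le measurable_const hβ
  have hsetN : ∀ k : ℕ, MeasurableSet {y | β y ≤ (k : ℝ)} := fun k =>
    measurableSet_le hβ measurable_const
  have hbound : ∀ k : ℕ,
      ∫ y in (Y ∩ {y | a ≤ β y}) ∩ {y | β y ≤ (k : ℝ)}, (β y - a) ≤ 2 * δ / κ := by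
    intro k
    set E := (Y ∩ {y | a ≤ β y}) ∩ {y | β y ≤ (k : ℝ)} with hEdef
    have hE : MeasurableSet E := (hY.inter hset).inter (hsetN k)
    have hEY : E ⊆ Y := fun y hy => hy.1.1
    have hEb : Bornology.IsBounded E := hYb.subset hEY
    have hEa : ∀ y ∈ E, a ≤ β y := fun y hy => hy.1.2
    have hexp : IntegrableOn (fun y => Real.exp (β y)) E :=
      exp_intOn hβ hE hEb (fun y hy => hy.2)
    set J := ∫ y in E, (β y - a) with hJ
    have hJ0 : 0 ≤ J := setIntegral_nonneg hE (fun y hy => sub_nonneg.mpr (hEa y hy))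
    have hbint : IntegrableOn (fun y => β y - a) E :=
      (hint.mono_set hEY).sub (integrableOn_const (by exact hEb.measure_lt_top.ne))
    have h1 := core (F := X ∩ {x | β x ≤ a}) (g := fun _ => J) hc hκ.le hN hΩ hC hE hEY hEb
      (fun x hx => hx.1) hexp (Or.inl fun x hx y hy => le_trans hx.2 (hEa y hy))
      (fun _ _ => hJ0) (by
        intro x hx
        apply setIntegral_mono_on hbint (abs_intOn hEb hexp _) hE
        intro y hy
        have h2 : β y - β x + 1 ≤ Real.exp (β y - β x) := Real.add_one_le_exp _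
        have h3 : β x ≤ a := hx.2
        have h4 := le_abs_self (Real.exp (β y - β x) - 1)
        linarith)
      (hX.inter (measurableSet_le hβ measurable_const))
    rw [setLIntegral_const] at h1
    have h2 : ENNReal.ofReal ((κ * J) ^ 2) * ENNReal.ofReal (V / 2) ≤
        ENNReal.ofReal δ ^ 2 * ENNReal.ofReal V := by
      calc _ ≤ _ := by gcongr
        _ ≤ _ := h1
        _ ≤ _ := by
          gcongr
          exact (measure_mono hEY).trans hYV
    rw [← ENNReal.ofReal_pow hδ.le, ← ENNReal.ofReal_mul (by positivity),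
      ← ENNReal.ofReal_mul (by positivity), ENNReal.ofReal_le_ofReal_iff (by positivity)] at h2
    have h3 : (κ * J) ^ 2 ≤ (2 * δ) ^ 2 := by
      have : (κ * J) ^ 2 ≤ 2 * δ ^ 2 := by
        by_contra hcon
        push Not at hcon
        have := mul_lt_mul_of_pos_right hcon hV
        nlinarith
      nlinarith [sq_nonneg δ]
    have h4 : κ * J ≤ 2 * δ := by
      exact (le_abs_self _).trans (abs_le_of_sq_le_sq h3 (by positivity))
    rw [le_div_iff₀ hκ]
    linarith
  have hmono : Monotone (fun k : ℕ => (Y ∩ {y | a ≤ β y}) ∩ {y | β y ≤ (k : ℝ)}) := by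
    intro i j hij y hy
    refine ⟨hy.1, ?_⟩
    have h1 : β y ≤ (i : ℝ) := hy.2
    have h2 : (i : ℝ) ≤ j := by exact_mod_cast hij
    show β y ≤ (j : ℝ)
    linarith
  have hun : (⋃ k : ℕ, (Y ∩ {y | a ≤ β y}) ∩ {y | β y ≤ (k : ℝ)}) = Y ∩ {y | a ≤ β y} := by
    ext y
    simp only [mem_iUnion, mem_inter_iff, Set.mem_ofPred_eq]
    constructor
    · rintro ⟨k, hk⟩
      exact hk.1
    · intro h
      obtain ⟨k, hk⟩ := exists_nat_ge (β y)
      exact ⟨k, h, hk⟩
  have hYa : MeasurableSet (Y ∩ {y | a ≤ β y}) := hY.inter hset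
  have hbint : IntegrableOn (fun y => β y - a) (Y ∩ {y | a ≤ β y}) :=
    ((hint.mono_set inter_subset_left)).sub
      (integrableOn_const (by exact (hYb.subset inter_subset_left).measure_lt_top.ne))
  have hlim := tendsto_setIntegral_of_monotone (fun k => hYa.inter (hsetN k)) hmono
    (by rw [hun]; exact hbint)
  rw [hun] at hlim
  exact le_of_tendsto' hlim hbound

lemma step3 (hc : ‖c‖ = 1) (hκ : 0 < κ) (hN : Nice Ω c κ B d X Y)
    (hΩ : ContinuousOn Ω (sphere 0 1)) (hβ : Measurable β) (hδ : 0 < δ)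
    (hC : ∀ f : Rn n → ℂ, IsTest β f →
      eLpNorm (fun x => czOp Ω f x - conjOp Ω β f x) 2 volume ≤
        ENNReal.ofReal δ * eLpNorm f 2 volume)
    (hX : MeasurableSet X) (hY : MeasurableSet Y) (hYb : Bornology.IsBounded Y)
    (hV : 0 < V) (a : ℝ) {s : ℝ} (hs : 0 < s)
    (hδs : 4 * δ ≤ κ * V * (1 - Real.exp (-s)))
    (hmed : ENNReal.ofReal (V / 2) ≤ volume (X ∩ {x | a ≤ β x})) :
    volume (Y ∩ {y | β y ≤ a - s}) ≤ ENNReal.ofReal (V / 4) := by
  set E := Y ∩ {y | β y ≤ a - s} with hEdef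
  have hE : MeasurableSet E := hY.inter (measurableSet_le hβ measurable_const)
  have hEY : E ⊆ Y := fun y hy => hy.1
  have hEb : Bornology.IsBounded E := hYb.subset hEY
  have hexp : IntegrableOn (fun y => Real.exp (β y)) E :=
    exp_intOn hβ hE hEb (fun y hy => hy.2)
  have hEfin : volume E ≠ ⊤ := hEb.measure_lt_top.ne
  set m := (volume E).toReal with hm
  have hm0 : 0 ≤ m := ENNReal.toReal_nonneg
  have hmE : volume E = ENNReal.ofReal m := (ENNReal.ofReal_toReal hEfin).symm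
  have hs1 : 0 < 1 - Real.exp (-s) := by
    have := Real.exp_lt_exp.mpr (neg_lt_zero.mpr hs)
    rw [Real.exp_zero] at this
    linarith
  have h1 := core (F := X ∩ {x | a ≤ β x}) (g := fun _ => (1 - Real.exp (-s)) * m) hc hκ.le hN hΩ
    hC hE hEY hEb (fun x hx => hx.1) hexp
    (Or.inr fun x hx y hy => by
      have h2 : a ≤ β x := hx.2
      have h3 : β y ≤ a - s := hy.2
      linarith)
    (fun _ _ => by positivity) (by
      intro x hx
      have h4 : (1 - Real.exp (-s)) * m = ∫ y in E, (1 - Real.exp (-s)) := by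
        rw [setIntegral_const, smul_eq_mul, mul_comm]
        rfl
      rw [h4]
      apply setIntegral_mono_on (integrableOn_const hEfin) (abs_intOn hEb hexp _) hE
      intro y hy
      have h2 : a ≤ β x := hx.2
      have h3 : β y ≤ a - s := hy.2
      have h5 : Real.exp (β y - β x) ≤ Real.exp (-s) := Real.exp_le_exp.mpr (by linarith)
      have h6 := neg_abs_le (Real.exp (β y - β x) - 1)
      linarith)
    (hX.inter (measurableSet_le measurable_const hβ))
  rw [setLIntegral_const, hmE] at h1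
  have h2 : ENNReal.ofReal ((κ * ((1 - Real.exp (-s)) * m)) ^ 2) * ENNReal.ofReal (V / 2) ≤
      ENNReal.ofReal δ ^ 2 * ENNReal.ofReal m := by
    calc _ ≤ _ := by gcongr
      _ ≤ _ := h1
  rw [← ENNReal.ofReal_pow hδ.le, ← ENNReal.ofReal_mul (by positivity),
    ← ENNReal.ofReal_mul (by positivity), ENNReal.ofReal_le_ofReal_iff (by positivity)] at h2
  rw [hmE]
  apply ENNReal.ofReal_le_ofReal
  rcases hm0.eq_or_lt with h0 | hmpos
  · rw [← h0]; positivity
  set w := κ * V * (1 - Real.exp (-s)) with hw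
  have hwpos : 0 < w := by positivity
  have h3 : (w * m) ^ 2 ≤ 2 * V * (δ ^ 2 * m) := by
    have : (w * m) ^ 2 = (κ * ((1 - Real.exp (-s)) * m)) ^ 2 * (V / 2) * (2 * V) := by
      rw [hw]; ring
    rw [this]
    have := mul_le_mul_of_nonneg_right h2 (by positivity : (0:ℝ) ≤ 2 * V)
    linarith
  have h4 : (4 * δ) ^ 2 ≤ w ^ 2 := by
    apply pow_le_pow_left₀ (by positivity) hδs
  have h5 : w ^ 2 * m ^ 2 ≤ 2 * V * m * (w ^ 2 / 16) := by
    calc w ^ 2 * m ^ 2 = (w * m) ^ 2 := by ring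
      _ ≤ 2 * V * (δ ^ 2 * m) := h3
      _ = 2 * V * m * ((4 * δ) ^ 2 / 16) := by ring
      _ ≤ 2 * V * m * (w ^ 2 / 16) := by gcongr
  have h6 : w ^ 2 * m * m ≤ w ^ 2 * m * (V / 8) := by nlinarith
  have h7 : m ≤ V / 8 := le_of_mul_le_mul_left h6 (by positivity)
  linarith

lemma step2 (hc : ‖c‖ = 1) (hκ : 0 < κ) (hN : Nice Ω c κ B d X Y)
    (hΩ : ContinuousOn Ω (sphere 0 1)) (hβ : Measurable β) (hδ : 0 < δ)
    (hC : ∀ f : Rn n → ℂ, IsTest β f →
      eLpNorm (fun x => czOp Ω f x - conjOp Ω β f x) 2 volume ≤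
        ENNReal.ofReal δ * eLpNorm f 2 volume)
    (hX : MeasurableSet X) (hY : MeasurableSet Y) (hYb : Bornology.IsBounded Y)
    (hV : 0 < V) (hXV : volume X ≤ ENNReal.ofReal V) (a : ℝ)
    (hmed : ENNReal.ofReal (V / 2) < volume (Y ∩ {y | a ≤ β y})) :
    ∫ x in X ∩ {x | β x ≤ a}, (a - β x) ≤ δ * V + 2 * δ / (κ ^ 2 * V) := by
  have hset : MeasurableSet {y | a ≤ β y} := measurableSet_le measurable_const hβ
  have hsetN : ∀ k : ℕ, MeasurableSet {y | β y ≤ (k : ℝ)} := fun k =>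
    measurableSet_le hβ measurable_const
  have hmono : Monotone (fun k : ℕ => (Y ∩ {y | a ≤ β y}) ∩ {y | β y ≤ (k : ℝ)}) := by
    intro i j hij y hy
    refine ⟨hy.1, ?_⟩
    have h1 : β y ≤ (i : ℝ) := hy.2
    have h2 : (i : ℝ) ≤ j := by exact_mod_cast hij
    show β y ≤ (j : ℝ)
    linarith
  have hun : (⋃ k : ℕ, (Y ∩ {y | a ≤ β y}) ∩ {y | β y ≤ (k : ℝ)}) = Y ∩ {y | a ≤ β y} := by
    ext y
    simp only [mem_iUnion, mem_inter_iff, Set.mem_ofPred_eq]
    constructor
    · rintro ⟨k, hk⟩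
      exact hk.1
    · intro h
      obtain ⟨k, hk⟩ := exists_nat_ge (β y)
      exact ⟨k, h, hk⟩
  have hlim := tendsto_measure_iUnion_atTop (μ := (volume : Measure (Rn n))) hmono
  rw [hun] at hlim
  obtain ⟨k, hk⟩ := (hlim.eventually_const_lt hmed).exists
  simp only [Function.comp] at hk
  set E := (Y ∩ {y | a ≤ β y}) ∩ {y | β y ≤ (k : ℝ)} with hEdef
  have hE : MeasurableSet E := (hY.inter hset).inter (hsetN k)
  have hEY : E ⊆ Y := fun y hy => hy.1.1
  have hEb : Bornology.IsBounded E := hYb.subset hEY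
  have hEa : ∀ y ∈ E, a ≤ β y := fun y hy => hy.1.2
  have hexp : IntegrableOn (fun y => Real.exp (β y)) E :=
    exp_intOn hβ hE hEb (fun y hy => hy.2)
  have hEfin : volume E ≠ ⊤ := hEb.measure_lt_top.ne
  set m := (volume E).toReal with hm
  have hmE : volume E = ENNReal.ofReal m := (ENNReal.ofReal_toReal hEfin).symm
  have hmV : V / 2 < m := by
    rw [hmE] at hk
    exact (ENNReal.ofReal_lt_ofReal_iff_of_nonneg (by positivity)).mp hk
  have hmpos : 0 < m := by linarith
  set F := X ∩ {x | β x ≤ a} with hF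
  have hFm : MeasurableSet F := hX.inter (measurableSet_le hβ measurable_const)
  have hFa : ∀ x ∈ F, β x ≤ a := fun x hx => hx.2
  have h1 := core (F := F) (g := fun x => m * (a - β x)) hc hκ.le hN hΩ
    hC hE hEY hEb (fun x hx => hx.1) hexp
    (Or.inl fun x hx y hy => le_trans (hFa x hx) (hEa y hy))
    (fun x hx => mul_nonneg hmpos.le (sub_nonneg.mpr (hFa x hx))) (by
      intro x hx
      have h4 : m * (a - β x) = ∫ y in E, (a - β x) := by
        rw [setIntegral_const, smul_eq_mul]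
        rfl
      rw [h4]
      apply setIntegral_mono_on (integrableOn_const hEfin) (abs_intOn hEb hexp _) hE
      intro y hy
      have h2 : β y - β x + 1 ≤ Real.exp (β y - β x) := Real.add_one_le_exp _
      have h3 : a ≤ β y := hEa y hy
      have h6 := le_abs_self (Real.exp (β y - β x) - 1)
      linarith) hFm
  rw [hmE, ← ENNReal.ofReal_pow hδ.le, ← ENNReal.ofReal_mul (by positivity)] at h1
  have hsq : ∫⁻ x in F, ENNReal.ofReal ((a - β x) ^ 2) ≤ ENNReal.ofReal (2 * δ ^ 2 / (κ ^ 2 * V)) := by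
    have h2 : ∫⁻ x in F, ENNReal.ofReal ((κ * (m * (a - β x))) ^ 2) =
        ENNReal.ofReal ((κ * m) ^ 2) * ∫⁻ x in F, ENNReal.ofReal ((a - β x) ^ 2) := by
      rw [← lintegral_const_mul']
      · congr 1
        ext x
        rw [← ENNReal.ofReal_mul (by positivity)]
        congr 1
        ring
      · exact ENNReal.ofReal_ne_top
    rw [h2] at h1
    have h3 : ENNReal.ofReal ((κ * m) ^ 2) ≠ 0 := by
      rw [Ne, ENNReal.ofReal_eq_zero, not_le]
      positivity
    have h4 : ∫⁻ x in F, ENNReal.ofReal ((a - β x) ^ 2) ≤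
        ENNReal.ofReal (δ ^ 2 * m) / ENNReal.ofReal ((κ * m) ^ 2) := by
      rw [ENNReal.le_div_iff_mul_le (Or.inl h3) (Or.inl ENNReal.ofReal_ne_top), mul_comm]
      exact h1
    refine h4.trans ?_
    rw [← ENNReal.ofReal_div_of_pos (by positivity)]
    apply ENNReal.ofReal_le_ofReal
    rw [div_le_div_iff₀ (by positivity) (by positivity)]
    have h5 : 0 ≤ δ ^ 2 * m * κ ^ 2 := by positivity
    nlinarith
  have hlin : ∫⁻ x in F, ENNReal.ofReal (a - β x) ≤
      ENNReal.ofReal (δ * V + 2 * δ / (κ ^ 2 * V)) := by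
    calc ∫⁻ x in F, ENNReal.ofReal (a - β x)
        ≤ ∫⁻ x in F, (ENNReal.ofReal δ + ENNReal.ofReal δ⁻¹ * ENNReal.ofReal ((a - β x) ^ 2)) := by
          apply lintegral_mono
          intro x
          show ENNReal.ofReal (a - β x) ≤
            ENNReal.ofReal δ + ENNReal.ofReal δ⁻¹ * ENNReal.ofReal ((a - β x) ^ 2)
          rw [← ENNReal.ofReal_mul (by positivity), ← ENNReal.ofReal_add (by positivity) (by positivity)]
          apply ENNReal.ofReal_le_ofReal
          by_cases hle : a - β x ≤ δ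
          · have : 0 ≤ δ⁻¹ * (a - β x) ^ 2 := by positivity
            linarith
          · push Not at hle
            have h7 : (a - β x) * δ ≤ (a - β x) ^ 2 := by nlinarith
            have h8 : a - β x ≤ δ⁻¹ * (a - β x) ^ 2 := by
              rw [inv_mul_eq_div, le_div_iff₀ hδ]
              exact h7
            linarith
      _ = ENNReal.ofReal δ * volume F + ENNReal.ofReal δ⁻¹ * ∫⁻ x in F, ENNReal.ofReal ((a - β x) ^ 2) := by
          rw [lintegral_add_left measurable_const, setLIntegral_const, lintegral_const_mul']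
          exact ENNReal.ofReal_ne_top
      _ ≤ ENNReal.ofReal δ * ENNReal.ofReal V +
            ENNReal.ofReal δ⁻¹ * ENNReal.ofReal (2 * δ ^ 2 / (κ ^ 2 * V)) := by
          gcongr
          exact (measure_mono inter_subset_left).trans hXV
      _ = ENNReal.ofReal (δ * V + 2 * δ / (κ ^ 2 * V)) := by
          rw [← ENNReal.ofReal_mul (by positivity), ← ENNReal.ofReal_mul (by positivity),
            ← ENNReal.ofReal_add (by positivity) (by positivity)]
          congr 1
          field_simp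
  rw [integral_eq_lintegral_of_nonneg_ae]
  · apply ENNReal.toReal_le_of_le_ofReal (by positivity) hlin
  · filter_upwards [ae_restrict_mem hFm] with x hx
    simpa using hFa x hx
  · exact (measurable_const.sub hβ).aestronglyMeasurable

end steps

/-! ### main estimate for measurable `β` -/

lemma osc_bound {n : ℕ} {Ω : Rn n → ℂ} (hΩ : ContinuousOn Ω (sphere 0 1)) {θ : Rn n}
    (hθ : ‖θ‖ = 1) {c : ℂ} (hc : ‖c‖ = 1)
    {b B r : ℝ} (hb : 0 < b) (hr : 0 < r) (hr2 : r ≤ 1 / 2)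
    (hnear : ∀ z : Rn n, ‖z - θ‖ ≤ r → b ≤ (c * kernel Ω z).re ∧ ‖kernel Ω z‖ ≤ B)
    {A : ℝ} (hA : 0 < A) (hAr : Real.sqrt n ≤ A * r)
    {c1 : ℝ} (hc1 : c1 = b / (2 * A) ^ n)
    {δ s : ℝ} (hδ : 0 < δ) (hs : 0 < s) (hδs : 4 * δ ≤ c1 * (1 - Real.exp (-s)))
    {β : Rn n → ℝ} (hβ : Measurable β) (hloc : LocallyIntegrable β)
    (hC : ∀ f : Rn n → ℂ, IsTest β f →
      eLpNorm (fun x => czOp Ω f x - conjOp Ω β f x) 2 volume ≤
        ENNReal.ofReal δ * eLpNorm f 2 volume)
    (p : Rn n) {ℓ : ℝ} (hℓ : 0 < ℓ) :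
    (⨍ x in cube p ℓ, |β x - ⨍ y in cube p ℓ, β y|) ≤
      2 * (s + δ * (1 + 2 / c1 + 2 / c1 ^ 2)) := by
  have hc1pos : 0 < c1 := by rw [hc1]; positivity
  set V : ℝ := ℓ ^ n with hVdef
  have hV : 0 < V := by positivity
  set κ : ℝ := b / (2 * A * ℓ) ^ n with hκdef
  have hκ : 0 < κ := by positivity
  have hκV : κ * V = c1 := by
    rw [hκdef, hVdef, hc1, mul_pow (2 * A) ℓ]
    field_simp
  set Q := cube p ℓ with hQ
  set Qp := cube (p + (A * ℓ) • θ) ℓ with hQp
  set Qm := cube (p - (A * ℓ) • θ) ℓ with hQm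
  have hN1 : Nice Ω c κ (B / (A * ℓ) ^ n) (A * ℓ / 2) Qp Q :=
    nice_cubes hθ hb hr hr2 hnear hA hAr hℓ le_rfl (by linarith) (by simp)
  have hN2 : Nice Ω c κ (B / (A * ℓ) ^ n) (A * ℓ / 2) Q Qm :=
    nice_cubes hθ hb hr hr2 hnear hA hAr hℓ le_rfl (by linarith) (by simp)
  have hN3 : Nice Ω c κ (B / (A * ℓ) ^ n) (A * ℓ / 2) Qp Qm :=
    nice_cubes hθ hb hr hr2 hnear hA hAr hℓ (t := 2 * A) (by linarith) le_rfl (by
      rw [mul_assoc, two_mul, add_smul]
      abel)
  have hmQ : MeasurableSet Q := cube_meas _ _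
  have hmQp : MeasurableSet Qp := cube_meas _ _
  have hmQm : MeasurableSet Qm := cube_meas _ _
  have hvQ : volume Q = ENNReal.ofReal V := cube_volume _ hℓ
  have hvQp : volume Qp = ENNReal.ofReal V := cube_volume _ hℓ
  have hvQm : volume Qm = ENNReal.ofReal V := cube_volume _ hℓ
  have hbQ : Bornology.IsBounded Q := cube_bdd _ hℓ
  have hbQm : Bornology.IsBounded Qm := cube_bdd _ hℓ
  have hintQ : IntegrableOn β Q := by
    obtain ⟨R, hR⟩ := hbQ.subset_closedBall (0 : Rn n)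
    exact (hloc.integrableOn_isCompact (isCompact_closedBall (0 : Rn n) R)).mono_set hR
  -- the median over `Qp`
  have : IsFiniteMeasure (volume.restrict Qp) := ⟨by
    rw [Measure.restrict_apply_univ, hvQp]; exact ENNReal.ofReal_lt_top⟩
  have hne0 : (volume.restrict Qp) ≠ 0 := by
    intro h0
    have h1 : (volume.restrict Qp) univ = 0 := by rw [h0]; simp
    rw [Measure.restrict_apply_univ, hvQp, ENNReal.ofReal_eq_zero] at h1
    linarith
  obtain ⟨a, ha1, ha2⟩ := exists_median (volume.restrict Qp) hne0 hβ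
  have hhalf : ENNReal.ofReal V / 2 = ENNReal.ofReal (V / 2) := by
    rw [ENNReal.ofReal_div_of_pos (by norm_num)]
    simp
  rw [Measure.restrict_apply_univ, hvQp, hhalf,
    Measure.restrict_apply (measurableSet_le hβ measurable_const), inter_comm] at ha1
  rw [Measure.restrict_apply_univ, hvQp, hhalf,
    Measure.restrict_apply (measurableSet_le measurable_const hβ), inter_comm] at ha2
  -- step 1
  have s1 := step1 hc hκ hN1 hΩ hβ hδ hC hmQp hmQ hbQ hV hvQ.le a ha1 hintQ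
  -- step 3
  have s3 := step3 hc hκ hN3 hΩ hβ hδ hC hmQp hmQm hbQm hV a hs (by rw [hκV]; exact hδs) ha2
  have hmed2 : ENNReal.ofReal (V / 2) < volume (Qm ∩ {y | a - s ≤ β y}) := by
    by_contra hcon
    push Not at hcon
    have h1 : volume Qm ≤ volume (Qm ∩ {y | a - s ≤ β y}) + volume (Qm ∩ {y | β y ≤ a - s}) := by
      refine (measure_mono ?_).trans (measure_union_le _ _)
      intro y hy
      rcases le_total (a - s) (β y) with h | h
      · exact Or.inl ⟨hy, h⟩
      · exact Or.inr ⟨hy, h⟩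
    have h2 : ENNReal.ofReal V ≤ ENNReal.ofReal (V / 2) + ENNReal.ofReal (V / 4) := by
      rw [← hvQm]
      exact h1.trans (add_le_add hcon s3)
    rw [← ENNReal.ofReal_add (by positivity) (by positivity),
      ENNReal.ofReal_le_ofReal_iff (by positivity)] at h2
    linarith
  -- step 2
  have s2 := step2 hc hκ hN2 hΩ hβ hδ hC hmQ hmQm hbQm hV hvQ.le (a - s) hmed2
  -- integrate
  have hVreal : (volume Q).toReal = V := by rw [hvQ, ENNReal.toReal_ofReal hV.le]
  have hfinQ : volume Q ≠ ⊤ := hbQ.measure_lt_top.ne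
  have hab : IntegrableOn (fun x => |β x - a|) Q :=
    (hintQ.sub (integrableOn_const hfinQ)).abs
  have hSa : MeasurableSet {y | a ≤ β y} := measurableSet_le measurable_const hβ
  have hSs : MeasurableSet {y | β y ≤ a - s} := measurableSet_le hβ measurable_const
  have hsum : ∫ x in Q, |β x - a| ≤ V * (s + δ * (1 + 2 / c1 + 2 / c1 ^ 2)) := by
    have i1 : IntegrableOn ({y | a ≤ β y}.indicator (fun x => β x - a)) Q :=
      (hintQ.sub (integrableOn_const hfinQ)).indicator hSa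
    have i2 : IntegrableOn ({y | β y ≤ a - s}.indicator (fun x => a - s - β x)) Q :=
      ((integrableOn_const hfinQ).sub hintQ).indicator hSs
    have i3 : IntegrableOn (fun _ : Rn n => s) Q := integrableOn_const hfinQ
    have i13 : IntegrableOn (fun x => {y | a ≤ β y}.indicator (fun x => β x - a) x + s) Q :=
      i1.add i3
    calc ∫ x in Q, |β x - a| ≤ ∫ x in Q, (({y | a ≤ β y}.indicator (fun x => β x - a) x + s) +
          {y | β y ≤ a - s}.indicator (fun x => a - s - β x) x) := by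
          apply integral_mono hab (i13.add i2)
          intro x
          show |β x - a| ≤ ({y | a ≤ β y}.indicator (fun x => β x - a) x + s) +
            {y | β y ≤ a - s}.indicator (fun x => a - s - β x) x
          by_cases h1 : a ≤ β x
          · have h2 : ¬ (β x ≤ a - s) := by intro h; linarith
            simp only [indicator, Set.mem_ofPred_eq, h1, h2, if_true, if_false]
            rw [abs_of_nonneg (by linarith)]
            linarith
          · push Not at h1
            by_cases h2 : β x ≤ a - s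
            · simp only [indicator, Set.mem_ofPred_eq, not_le.mpr h1, h2, if_true, if_false]
              rw [abs_of_nonpos (by linarith)]
              linarith
            · push Not at h2
              simp only [indicator, Set.mem_ofPred_eq, not_le.mpr h1, not_le.mpr h2, if_false]
              rw [abs_of_nonpos (by linarith)]
              linarith
      _ = (∫ x in Q ∩ {y | a ≤ β y}, (β x - a)) + V * s +
            ∫ x in Q ∩ {y | β y ≤ a - s}, (a - s - β x) := by
          rw [integral_add i13 i2, integral_add i1 i3, setIntegral_indicator hSa,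
            setIntegral_indicator hSs, setIntegral_const, smul_eq_mul]
          congr 3
      _ ≤ 2 * δ / κ + V * s + (δ * V + 2 * δ / (κ ^ 2 * V)) := by gcongr
      _ = V * (s + δ * (1 + 2 / c1 + 2 / c1 ^ 2)) := by
          rw [← hκV]
          field_simp
          ring
  set K := s + δ * (1 + 2 / c1 + 2 / c1 ^ 2) with hK
  set M := ⨍ y in Q, β y with hM
  have havg : ∀ g : Rn n → ℝ, ⨍ x in Q, g x = V⁻¹ * ∫ x in Q, g x := by
    intro g
    rw [setAverage_eq, smul_eq_mul]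
    congr 2
  have hMa : |a - M| ≤ V⁻¹ * ∫ x in Q, |β x - a| := by
    have h1 : M - a = V⁻¹ * ∫ x in Q, (β x - a) := by
      rw [hM, havg, integral_sub hintQ (integrableOn_const hfinQ), setIntegral_const, smul_eq_mul]
      have : volume.real Q = V := hVreal
      rw [this]
      field_simp
    rw [abs_sub_comm, h1, abs_mul, abs_of_pos (inv_pos.mpr hV)]
    gcongr
    exact abs_integral_le_integral_abs
  have hfin : ∫ x in Q, |β x - M| ≤ (∫ x in Q, |β x - a|) + V * |a - M| := by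
    have i3 : IntegrableOn (fun _ : Rn n => |a - M|) Q := integrableOn_const hfinQ
    calc ∫ x in Q, |β x - M| ≤ ∫ x in Q, (|β x - a| + |a - M|) := by
          apply integral_mono ((hintQ.sub (integrableOn_const hfinQ)).abs) (hab.add i3)
          intro x
          exact abs_sub_le _ _ _
      _ = _ := by
          rw [integral_add hab i3, setIntegral_const, smul_eq_mul]
          congr 2
  rw [havg]
  have h1 : V⁻¹ * (∫ x in Q, |β x - a|) ≤ K := by
    rw [inv_mul_le_iff₀ hV]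
    exact hsum
  calc V⁻¹ * ∫ x in Q, |β x - M| ≤ V⁻¹ * ((∫ x in Q, |β x - a|) + V * |a - M|) := by gcongr
    _ = V⁻¹ * (∫ x in Q, |β x - a|) + |a - M| := by field_simp
    _ ≤ K + K := add_le_add h1 (hMa.trans h1)
    _ = 2 * K := by ring

/-! ### reduction to measurable `β` and the theorem -/

lemma bmoNorm_congr {n : ℕ} {β β' : Rn n → ℝ} (h : β =ᵐ[volume] β') : bmoNorm β = bmoNorm β' := by
  unfold bmoNorm
  congr 1
  ext a
  congr 1
  ext ℓ
  congr 1
  ext _
  have key : ∀ (S : Set (Rn n)) (g k : Rn n → ℝ), g =ᵐ[volume] k →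
      ⨍ y in S, g y = ⨍ y in S, k y := by
    intro S g k hgk
    rw [setAverage_eq, setAverage_eq]
    congr 1
    exact integral_congr_ae (ae_restrict_of_ae hgk)
  rw [key _ _ _ h]
  congr 1
  apply key
  filter_upwards [h] with x hx
  rw [hx]

lemma czOp_congr {n : ℕ} (Ω : Rn n → ℂ) {f g : Rn n → ℂ} (h : f =ᵐ[volume] g) :
    czOp Ω f = czOp Ω g := by
  ext x
  unfold czOp
  congr 1
  ext ε
  apply integral_congr_ae
  filter_upwards [ae_restrict_of_ae h] with y hy
  rw [hy]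

lemma test_congr {n : ℕ} (Ω : Rn n → ℂ) {β β' : Rn n → ℝ} (h : β =ᵐ[volume] β') {C : ℝ≥0∞}
    (hC : ∀ f : Rn n → ℂ, IsTest β f →
      eLpNorm (fun x => czOp Ω f x - conjOp Ω β f x) 2 volume ≤ C * eLpNorm f 2 volume) :
    ∀ f : Rn n → ℂ, IsTest β' f →
      eLpNorm (fun x => czOp Ω f x - conjOp Ω β' f x) 2 volume ≤ C * eLpNorm f 2 volume := by
  intro f hf
  have h1 : (fun y => (Real.exp (β y) : ℂ) * f y) =ᵐ[volume]
      (fun y => (Real.exp (β' y) : ℂ) * f y) := by
    filter_upwards [h] with y hy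
    rw [hy]
  have hf' : IsTest β f := ⟨hf.meas, hf.bdd, hf.supp, hf.int.congr h1.symm⟩
  have h2 := hC f hf'
  refine le_trans (le_of_eq ?_) h2
  apply eLpNorm_congr_ae
  filter_upwards [h] with x hx
  unfold conjOp
  rw [czOp_congr Ω h1, hx]

/-- For every `n ≥ 1`, every singular integral `K` with angular part `Ω` continuous (in
particular, smooth) on the sphere, of mean zero and not identically zero, and every `ε > 0` there
is `δ > 0` such that `‖K - K_β‖ < δ` implies `‖β‖_* < ε` for all `β` in `BMO`. -/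
theorem result (n : ℕ) (hn : 1 ≤ n) (Ω : Rn n → ℂ)
    (hΩ : ContinuousOn Ω (sphere 0 1))
    (_hmean : ∫ θ : sphere (0 : Rn n) 1, Ω θ ∂(volume : Measure (Rn n)).toSphere = 0)
    (hne : ∃ θ ∈ sphere (0 : Rn n) 1, Ω θ ≠ 0)
    (ε : ℝ≥0∞) (hε : 0 < ε) :
    ∃ δ : ℝ≥0∞, 0 < δ ∧ ∀ β : Rn n → ℝ, LocallyIntegrable β → bmoNorm β < ⊤ →
      diffNorm Ω β < δ → bmoNorm β < ε := by
  obtain ⟨e, he0, heε⟩ := ENNReal.lt_iff_exists_nnreal_btwn.mp hε
  have he : 0 < (e : ℝ) := by exact_mod_cast he0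
  obtain ⟨θ, hθ, hΩθ⟩ := hne
  have hθn : ‖θ‖ = 1 := by simpa using hθ
  obtain ⟨c, hc, b, hb, B, r, hr, hr2, hnear⟩ := kernel_near Ω hΩ θ hθ hΩθ
  set A : ℝ := (Real.sqrt n + 1) / r with hA
  have hApos : 0 < A := by positivity
  have hAr : Real.sqrt n ≤ A * r := by
    rw [hA]
    field_simp
    linarith
  set c1 : ℝ := b / (2 * A) ^ n with hc1
  have hc1pos : 0 < c1 := by positivity
  set s : ℝ := e / 8 with hs
  have hspos : 0 < s := by positivity
  have hexps : 0 < 1 - Real.exp (-s) := by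
    have := Real.exp_lt_exp.mpr (neg_lt_zero.mpr hspos)
    rw [Real.exp_zero] at this
    linarith
  set L : ℝ := 1 + 2 / c1 + 2 / c1 ^ 2 with hL
  have hLpos : 0 < L := by positivity
  set δ : ℝ := min (c1 * (1 - Real.exp (-s)) / 4) (e / (8 * L)) with hδ
  have hδpos : 0 < δ := by positivity
  refine ⟨ENNReal.ofReal δ, by simpa using hδpos, ?_⟩
  intro β hloc _ hdiff
  obtain ⟨C, hCmem, hClt⟩ := sInf_lt_iff.mp hdiff
  have hCβ : ∀ f : Rn n → ℂ, IsTest β f →
      eLpNorm (fun x => czOp Ω f x - conjOp Ω β f x) 2 volume ≤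
        ENNReal.ofReal δ * eLpNorm f 2 volume := by
    intro f hf
    refine (hCmem f hf).trans ?_
    gcongr
  obtain ⟨β', hβ'm, hββ'⟩ := hloc.aestronglyMeasurable
  have hloc' : LocallyIntegrable β' := hloc.congr hββ'
  have hC' := test_congr Ω hββ' hCβ
  rw [bmoNorm_congr hββ']
  refine lt_of_le_of_lt ?_ heε
  unfold bmoNorm
  refine iSup_le fun p => iSup_le fun ℓ => iSup_le fun hℓ => ?_
  have hmain := osc_bound hΩ hθn hc hb hr hr2 hnear hApos hAr hc1 hδpos hspos
    (by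
      have := min_le_left (c1 * (1 - Real.exp (-s)) / 4) (e / (8 * L))
      rw [← hδ] at this
      linarith)
    hβ'm.measurable hloc' hC' p hℓ
  have h3 : 2 * (s + δ * L) ≤ e := by
    have h4 : δ ≤ e / (8 * L) := min_le_right _ _
    have h5 : δ * L ≤ e / 8 := by
      calc δ * L ≤ e / (8 * L) * L := by gcongr
        _ = e / 8 := by field_simp
    rw [hs]
    linarith
  calc ENNReal.ofReal (⨍ x in cube p ℓ, |β' x - ⨍ y in cube p ℓ, β' y|)
      ≤ ENNReal.ofReal (e : ℝ) := ENNReal.ofReal_le_ofReal (hmain.trans h3)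
    _ = e := ENNReal.ofReal_coe_nnreal

end Pool.Agent.Results.MP_9d555c_an.Full
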